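import Pool.Agent.Y704.JR.Rad
import Pool.Agent.Y339.JR.Ami

set_option autoImplicit false

/-!
# Affine domains with nonzero Jacobson radical: universality and the exact class of fields

All rings are associative with one; `Ideal R` is the lattice of left ideals of `R`, so
`Ideal.jacobson ⊥` is the intersection of all maximal left ideals.

(1) Let `k` be any countable commutative domain and `Q` any countable infinite group with unique
products.  The group algebra `k[Q]` is a retract of a domain `R`, generated by `k[Q]` and the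
elements `x, u, u⁻¹, b, b⁻¹`, such that `x ≠ 0` is central, `J(R) = x R`, the intersection of the
ideals `x ^ n R` is zero and `R / J(R)` is the group algebra of `(F(Q) × F(Q)) ⋊ Q`.
If `Q` is finitely generated then `R` is a finitely generated `k`-algebra.

(2) For a field `k` there is a finitely generated `k`-algebra which is a domain with nonzero
Jacobson radical if and only if `k` is countable.
-/

namespace Pool.Agent.Results.MP_2e9a62_al.GroupAlgebraRetracts

open Pool.Agent.Y704.JQ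

/-- The exact radical, for all countable commutative domains and all countable infinite groups with
unique products. -/
theorem main (k : Type) [CommRing k] [IsDomain k] [Countable k] (Q : Type) [Group Q] [Infinite Q]
    [Countable Q] [UniqueProds Q] :
    ∃ (R : Type) (_ : Ring R) (_ : Algebra k R) (x u v b c : R)
      (i : MonoidAlgebra k Q →ₐ[k] R) (p : R →ₐ[k] MonoidAlgebra k Q)
      (f : R →ₐ[k] MonoidAlgebra k ((FreeGroup Q × FreeGroup Q) ⋊[act Q] Q)),
      IsDomain R ∧
      Algebra.adjoin k (Set.range i ∪ {x, u, v, b, c}) = ⊤ ∧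
      (u * v = 1 ∧ v * u = 1 ∧ b * c = 1 ∧ c * b = 1) ∧
      (Group.FG Q → Algebra.FiniteType k R) ∧
      (p.comp i = AlgHom.id k _ ∧ p x = 0) ∧
      (x ≠ 0 ∧ ∀ r : R, x * r = r * x) ∧
      Ideal.jacobson (⊥ : Ideal R) = Ideal.span {x} ∧
      (∀ r : R, (∀ n : ℕ, ∃ s : R, r = x ^ n * s) → r = 0) ∧
      (Function.Surjective f ∧ ∀ r : R, f r = 0 ↔ r ∈ Ideal.jacobson (⊥ : Ideal R)) := by
  obtain ⟨rr, hrr⟩ := exists_rr k Q
  have h1 : Nontrivial (RT k Q rr) := ⟨⟨rX k Q rr, 0, rX_ne k Q rr⟩⟩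
  have h2 : NoZeroDivisors (RT k Q rr) := RT_nzd k Q rr
  have hadj : Algebra.adjoin k (Set.range (inc k Q rr) ∪ {rX k Q rr, (rT k Q rr : RT k Q rr),
      (((rT k Q rr)⁻¹ : (RT k Q rr)ˣ) : RT k Q rr), (rB k Q rr : RT k Q rr),
      (((rB k Q rr)⁻¹ : (RT k Q rr)ˣ) : RT k Q rr)}) = ⊤ := by
    rw [eq_top_iff, ← adjoin_eq k Q rr]
    apply Algebra.adjoin_mono
    apply Set.union_subset_union_right
    rintro _ ⟨j, rfl⟩
    fin_cases j
    · exact Or.inl rfl
    · exact Or.inr (Or.inl rfl)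
    · exact Or.inr (Or.inr (Or.inl rfl))
    · exact Or.inr (Or.inr (Or.inr (Or.inl rfl)))
    · exact Or.inr (Or.inr (Or.inr (Or.inr rfl)))
  refine ⟨RT k Q rr, inferInstance, inferInstance, rX k Q rr, (rT k Q rr : RT k Q rr),
    (((rT k Q rr)⁻¹ : (RT k Q rr)ˣ) : RT k Q rr), (rB k Q rr : RT k Q rr),
    (((rB k Q rr)⁻¹ : (RT k Q rr)ˣ) : RT k Q rr), inc k Q rr, prj k Q rr,
    (eqv k Q rr).toAlgHom.comp (qm k Q rr), NoZeroDivisors.to_isDomain _, hadj,
    ⟨Units.mul_inv _, Units.inv_mul _, Units.mul_inv _, Units.inv_mul _⟩, ?_,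
    ⟨prj_inc k Q rr, prj_X k Q rr⟩,
    ⟨rX_ne k Q rr, fun r => (rX_comm k Q rr r).symm⟩, jac_eq k Q rr hrr,
    fun r hr => separated k Q rr r hr, ?_, ?_⟩
  · intro hQ
    have h3 : Algebra.FiniteType k (MonoidAlgebra k Q) := inferInstance
    constructor
    rw [← hadj, Algebra.adjoin_union]
    apply Subalgebra.FG.sup
    · have h4 : Algebra.adjoin k (Set.range (inc k Q rr)) = (⊤ : Subalgebra k _).map (inc k Q rr) := by
        rw [Algebra.map_top, ← AlgHom.coe_range, Algebra.adjoin_eq]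
      rw [h4]
      exact Subalgebra.FG.map _ h3.out
    · classical
      have h5 : ({rX k Q rr, (rT k Q rr : RT k Q rr),
          (((rT k Q rr)⁻¹ : (RT k Q rr)ˣ) : RT k Q rr), (rB k Q rr : RT k Q rr),
          (((rB k Q rr)⁻¹ : (RT k Q rr)ˣ) : RT k Q rr)} : Set (RT k Q rr)).Finite :=
        Set.toFinite _
      rw [← h5.coe_toFinset]
      exact Subalgebra.fg_adjoin_finset _
  · exact (eqv k Q rr).surjective.comp (qm_surj k Q rr)
  · intro r
    rw [jac_eq k Q rr hrr]
    change eqv k Q rr (qm k Q rr r) = 0 ↔ _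
    rw [EmbeddingLike.map_eq_zero_iff]
    exact Ideal.Quotient.eq_zero_iff_mem

/-- **Affine domains with nonzero Jacobson radical.**  See the introduction of this file. -/
theorem result :
    (∀ (k : Type) [CommRing k] [IsDomain k] [Countable k] (Q : Type) [Group Q] [Infinite Q]
      [Countable Q] [UniqueProds Q],
      ∃ (R : Type) (_ : Ring R) (_ : Algebra k R) (x u v b c : R)
        (i : MonoidAlgebra k Q →ₐ[k] R) (p : R →ₐ[k] MonoidAlgebra k Q)
        (f : R →ₐ[k] MonoidAlgebra k ((FreeGroup Q × FreeGroup Q) ⋊[act Q] Q)),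
        IsDomain R ∧
        Algebra.adjoin k (Set.range i ∪ {x, u, v, b, c}) = ⊤ ∧
        (u * v = 1 ∧ v * u = 1 ∧ b * c = 1 ∧ c * b = 1) ∧
        (Group.FG Q → Algebra.FiniteType k R) ∧
        (p.comp i = AlgHom.id k _ ∧ p x = 0) ∧
        (x ≠ 0 ∧ ∀ r : R, x * r = r * x) ∧
        Ideal.jacobson (⊥ : Ideal R) = Ideal.span {x} ∧
        (∀ r : R, (∀ n : ℕ, ∃ s : R, r = x ^ n * s) → r = 0) ∧
        (Function.Surjective f ∧ ∀ r : R, f r = 0 ↔ r ∈ Ideal.jacobson (⊥ : Ideal R))) ∧
    (∀ (k : Type) [Field k],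
      (∃ (R : Type) (_ : Ring R) (_ : Algebra k R),
        Algebra.FiniteType k R ∧ IsDomain R ∧ Ideal.jacobson (⊥ : Ideal R) ≠ ⊥) ↔ Countable k) := by
  refine ⟨fun k _ _ _ Q _ _ _ _ => main k Q, fun k _ => ⟨?_, ?_⟩⟩
  · rintro ⟨R, _, _, h1, h2, h3⟩
    by_contra hk
    rw [not_countable_iff] at hk
    exact h3 (Pool.Agent.Y339.JR.t_AMI k hk R)
  · intro hk
    obtain ⟨R, _, _, x, u, v, b, c, i, p, f, hd, -, -, hft, -, hx, hj, -, -⟩ :=
      main k (Multiplicative ℤ)
    refine ⟨R, inferInstance, inferInstance, hft inferInstance, hd, ?_⟩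
    rw [hj]
    intro h
    rw [Ideal.span_singleton_eq_bot] at h
    exact hx.1 h

end Pool.Agent.Results.MP_2e9a62_al.GroupAlgebraRetracts
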